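import Pool.Agent.Helper91.US.Defs2

set_option autoImplicit false

/-!
# `DF n` : nonnegativity, homogeneity, continuity, smoothness, gradient bound
-/

namespace Pool.Agent.US

open Finset Filter Topology
open scoped ContDiff

namespace Dbar1

/-! ### the recursion -/

theorem D_congr {n : ℕ} {y y' : ℕ → ℝ} (h : ∀ j ≤ n, y j = y' j) (k : ℕ) :
    D n y k = D n y' k := by
  induction hk : n - k using Nat.strong_induction_on generalizing k with
  | _ s ih =>
    rw [D_eq, D_eq]
    congr 1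
    apply Finset.sum_congr rfl
    intro j hj
    have hj' := Finset.mem_Ioc.1 hj
    rw [h j hj'.2, ih (n - j) (by omega) j rfl]

theorem G_congr {n : ℕ} {y y' : ℕ → ℝ} (h : ∀ j ≤ n, y j = y' j) (k : ℕ) :
    G n y k = G n y' k := by
  unfold G
  exact Finset.sum_congr rfl (fun j _ => D_congr h j)

theorem Sk_le_Sk {k j : ℕ} (hkj : k < j) (y : ℝ) : Sk k y ≤ Sk j y := by
  by_cases hy : 2 * lam k ≤ y
  · rw [Sk_eq_zero hy]; exact Sk_nonneg _ _
  · push Not at hy
    have h1 : lam (k + 1) ≤ lam j := lam_mono hkj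
    rw [lam_succ] at h1
    rw [Sk_eq_one (by linarith : y ≤ lam j)]
    exact Sk_le_one _ _

theorem D_bounds (n : ℕ) (y : ℕ → ℝ) (k : ℕ) : 0 ≤ D n y k ∧ D n y k ≤ 1 := by
  induction hk : n - k using Nat.strong_induction_on generalizing k with
  | _ s ih =>
    have ih' : ∀ j, k < j → j ≤ n → 0 ≤ D n y j ∧ D n y j ≤ 1 := fun j h1 h2 =>
      ih (n - j) (by omega) j rfl
    rw [D_eq]
    have hnn : 0 ≤ ∑ j ∈ Finset.Ioc k n, Sk k (y j) * D n y j :=
      Finset.sum_nonneg (fun j hj => mul_nonneg (Sk_nonneg _ _)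
        (ih' j (Finset.mem_Ioc.1 hj).1 (Finset.mem_Ioc.1 hj).2).1)
    suffices hle : ∑ j ∈ Finset.Ioc k n, Sk k (y j) * D n y j ≤ 1 by
      constructor <;> linarith
    by_cases hA : ((Finset.Ioc k n).filter (fun j => y j < 2 * lam k)).Nonempty
    · set j1 := ((Finset.Ioc k n).filter (fun j => y j < 2 * lam k)).min' hA with hj1
      have hmem := Finset.min'_mem _ hA
      rw [← hj1, Finset.mem_filter, Finset.mem_Ioc] at hmem
      obtain ⟨⟨hk1, hn1⟩, hy1⟩ := hmem
      have hsub : Finset.Icc j1 n ⊆ Finset.Ioc k n := by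
        intro l hl
        rw [Finset.mem_Icc] at hl
        rw [Finset.mem_Ioc]
        omega
      have h1 : ∑ j ∈ Finset.Ioc k n, Sk k (y j) * D n y j
          = ∑ j ∈ Finset.Icc j1 n, Sk k (y j) * D n y j := by
        symm
        apply Finset.sum_subset hsub
        intro l hl hl'
        rw [Finset.mem_Ioc] at hl
        rw [Finset.mem_Icc] at hl'
        have : 2 * lam k ≤ y l := by
          by_contra hc
          push Not at hc
          have : j1 ≤ l := Finset.min'_le _ _
            (Finset.mem_filter.2 ⟨Finset.mem_Ioc.2 hl, hc⟩)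
          omega
        rw [Sk_eq_zero this, zero_mul]
      have h2 : Finset.Icc j1 n = insert j1 (Finset.Ioc j1 n) := by
        ext l
        simp only [Finset.mem_Icc, Finset.mem_insert, Finset.mem_Ioc]
        omega
      have h3 : D n y j1 + ∑ j ∈ Finset.Ioc j1 n, Sk j1 (y j) * D n y j = 1 := by
        rw [D_eq n y j1]; ring
      rw [h1, h2, Finset.sum_insert (by simp)]
      have h4 : ∑ j ∈ Finset.Ioc j1 n, Sk k (y j) * D n y j
          ≤ ∑ j ∈ Finset.Ioc j1 n, Sk j1 (y j) * D n y j := by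
        apply Finset.sum_le_sum
        intro l hl
        rw [Finset.mem_Ioc] at hl
        exact mul_le_mul_of_nonneg_right (Sk_le_Sk hk1 _) (ih' l (by omega) hl.2).1
      have h5 : Sk k (y j1) * D n y j1 ≤ D n y j1 := by
        have := mul_le_mul_of_nonneg_right (Sk_le_one k (y j1)) (ih' j1 hk1 hn1).1
        linarith
      linarith
    · rw [Finset.not_nonempty_iff_eq_empty, Finset.filter_eq_empty_iff] at hA
      have : ∑ j ∈ Finset.Ioc k n, Sk k (y j) * D n y j = 0 := by
        apply Finset.sum_eq_zero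
        intro l hl
        rw [Sk_eq_zero (by have := hA hl; push Not at this; exact this), zero_mul]
      rw [this]
      exact zero_le_one

theorem V_bounds (i : ℕ) (m : ℕ → ℝ) : 0 ≤ V i m ∧ V i m ≤ i := by
  unfold V G
  have h0 : Finset.Icc 0 i = insert 0 (Finset.Ioc 0 i) := by
    ext l
    simp only [Finset.mem_Icc, Finset.mem_insert, Finset.mem_Ioc]
    omega
  rw [h0, Finset.sum_insert (by simp)]
  constructor
  · rw [D_eq i (Y m i) 0]
    have : ∑ j ∈ Finset.Ioc 0 i, Sk 0 (Y m i j) * D i (Y m i) j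
        ≤ ∑ j ∈ Finset.Ioc 0 i, D i (Y m i) j := by
      apply Finset.sum_le_sum
      intro l _
      have := mul_le_mul_of_nonneg_right (Sk_le_one 0 (Y m i l)) (D_bounds i (Y m i) l).1
      linarith
    linarith
  · have h1 := (D_bounds i (Y m i) 0).2
    have h2 : ∑ j ∈ Finset.Ioc 0 i, D i (Y m i) j ≤ ∑ j ∈ Finset.Ioc 0 i, (1 : ℝ) :=
      Finset.sum_le_sum (fun j _ => (D_bounds i (Y m i) j).2)
    simp at h2
    linarith

/-! ### smoothness -/

theorem sg_contDiff : ContDiff ℝ ∞ sg := by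
  unfold sg
  exact contDiff_const.sub (Real.smoothTransition.contDiff.comp (contDiff_id.sub contDiff_const))

theorem Sk_contDiff (k : ℕ) : ContDiff ℝ ∞ (Sk k) := by
  unfold Sk
  exact sg_contDiff.comp (contDiff_id.div_const _)

theorem D_contDiffAt {E : Type*} [NormedAddCommGroup E] [NormedSpace ℝ E] {n : ℕ}
    {y : E → ℕ → ℝ} {x : E} (h : ∀ j ≤ n, ContDiffAt ℝ ∞ (fun x => y x j) x) (k : ℕ) :
    ContDiffAt ℝ ∞ (fun x => D n (y x) k) x := by
  induction hk : n - k using Nat.strong_induction_on generalizing k with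
  | _ s ih =>
    have : (fun x => D n (y x) k)
        = fun x => 1 - ∑ j ∈ Finset.Ioc k n, Sk k (y x j) * D n (y x) j := by
      funext x
      exact D_eq _ _ _
    rw [this]
    apply contDiffAt_const.sub
    apply ContDiffAt.sum
    intro j hj
    rw [Finset.mem_Ioc] at hj
    exact (((Sk_contDiff k).contDiffAt).comp x (h j hj.2)).mul (ih (n - j) (by omega) j rfl)

theorem G_contDiffAt {E : Type*} [NormedAddCommGroup E] [NormedSpace ℝ E] {n : ℕ}
    {y : E → ℕ → ℝ} {x : E} (h : ∀ j ≤ n, ContDiffAt ℝ ∞ (fun x => y x j) x) (k : ℕ) :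
    ContDiffAt ℝ ∞ (fun x => G n (y x) k) x := by
  unfold G
  exact ContDiffAt.sum (fun j _ => D_contDiffAt h j)

theorem ext_contDiff (n j : ℕ) : ContDiff ℝ ∞ (fun m : Fin n → ℝ => ext n m j) := by
  unfold ext
  by_cases h : j < n
  · simp only [h, dif_pos]
    exact contDiff_apply ℝ ℝ _
  · simp only [h, dif_neg, not_false_iff]
    exact contDiff_const

theorem F_contDiff (n k : ℕ) : ContDiff ℝ ∞ (fun m : Fin n → ℝ => F (ext n m) k) := by
  unfold F
  exact ContDiff.sum (fun j _ => ext_contDiff n j)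

theorem ext_nonneg {n : ℕ} {m : Fin n → ℝ} (hm : ∀ i, 0 ≤ m i) (j : ℕ) : 0 ≤ ext n m j := by
  unfold ext
  split_ifs
  · exact hm _
  · exact le_rfl

theorem ext_pos {n : ℕ} {m : Fin n → ℝ} (hm : ∀ i, 0 < m i) {j : ℕ} (hj : j < n) :
    0 < ext n m j := by
  unfold ext
  rw [dif_pos hj]
  exact hm _

theorem F_sub_pos {m : ℕ → ℝ} (hm : ∀ i, 0 ≤ m i) {i k : ℕ} (hk : k ≤ i) (hi : 0 < m i) :
    0 < F m (i + 1) - F m k := by
  have h1 : F m k ≤ F m i := by
    unfold F
    exact Finset.sum_le_sum_of_subset_of_nonneg (Finset.range_mono hk) (fun j _ _ => hm j)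
  have h2 : F m (i + 1) = F m i + m i := by
    unfold F
    rw [Finset.sum_range_succ]
  linarith

theorem F_succ_pos {m : ℕ → ℝ} (hm : ∀ i, 0 ≤ m i) {i : ℕ} (hi : 0 < m i) :
    0 < F m (i + 1) := by
  have := F_sub_pos hm (Nat.zero_le i) hi
  simpa [F] using this

theorem V_contDiffAt {n : ℕ} {m : Fin n → ℝ} (hm : ∀ i, 0 ≤ m i) {i : ℕ}
    (hi : 0 < ext n m i) : ContDiffAt ℝ ∞ (fun m => V i (ext n m)) m := by
  unfold V
  refine ContDiffAt.sub (G_contDiffAt (fun j hj => ?_) 0) contDiffAt_const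
  unfold Y
  refine ContDiffAt.sub (ContDiffAt.log (F_contDiff n (i + 1)).contDiffAt
    (F_succ_pos (ext_nonneg hm) hi).ne') (ContDiffAt.log
    ((F_contDiff n (i + 1)).contDiffAt.sub (F_contDiff n j).contDiffAt)
    (F_sub_pos (ext_nonneg hm) hj hi).ne')

end Dbar1

open Dbar1

/-- the function `DF n` is nonnegative. -/
theorem DF_nonneg (n : ℕ) : ∀ m, (∀ i, 0 ≤ m i) → 0 ≤ DF n m := by
  intro m hm
  unfold DF Dsum
  exact Finset.sum_nonneg (fun i _ => mul_nonneg (ext_nonneg hm i) (V_bounds i _).1)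

theorem dbar_V_smul {m : ℕ → ℝ} (hm : ∀ i, 0 ≤ m i) {i : ℕ} (hi : 0 < m i) {t : ℝ} (ht : 0 < t) :
    V i (fun j => t * m j) = V i m := by
  have hF : ∀ k, F (fun j => t * m j) k = t * F m k := by
    intro k
    unfold F
    rw [Finset.mul_sum]
  unfold V
  congr 1
  apply G_congr
  intro j hj
  unfold Y
  rw [hF, hF, ← mul_sub, Real.log_mul ht.ne' (F_succ_pos hm hi).ne',
    Real.log_mul ht.ne' (F_sub_pos hm hj hi).ne']
  ring

theorem DF_hom (n : ℕ) : ∀ m, (∀ i, 0 ≤ m i) → ∀ t : ℝ, 0 ≤ t →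
    DF n (fun i => t * m i) = t * DF n m := by
  intro m hm t ht
  have hext : ext n (fun i => t * m i) = fun j => t * ext n m j := by
    funext j
    unfold ext
    split_ifs
    · rfl
    · ring
  unfold DF Dsum
  rw [hext, Finset.mul_sum]
  apply Finset.sum_congr rfl
  intro i _
  rcases ht.eq_or_lt with h0 | ht
  · rw [← h0]; ring
  rcases (ext_nonneg hm i).eq_or_lt with h0 | hi
  · simp only [← h0]; ring
  rw [dbar_V_smul (ext_nonneg hm) hi ht]
  ring

theorem DF_cont (n : ℕ) : ContinuousOn (DF n) {m | ∀ i, 0 ≤ m i} := by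
  unfold DF Dsum
  apply continuousOn_finsetSum
  intro i _ m hm
  rcases (ext_nonneg hm i).eq_or_lt with h0 | hi
  · have hval : ext n m i * V i (ext n m) = 0 := by rw [← h0, zero_mul]
    have hc : Tendsto (fun m' : Fin n → ℝ => ext n m' i * i) (𝓝[{m | ∀ i, 0 ≤ m i}] m) (𝓝 0) := by
      have h1 : Tendsto (fun m' : Fin n → ℝ => ext n m' i * i) (𝓝 m) (𝓝 (ext n m i * i)) :=
        (((ext_contDiff n i).continuous).mul continuous_const).tendsto m
      rw [← h0, zero_mul] at h1
      exact h1.mono_left nhdsWithin_le_nhds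
    show Tendsto (fun m' => ext n m' i * V i (ext n m')) (𝓝[{m | ∀ i, 0 ≤ m i}] m)
      (𝓝 (ext n m i * V i (ext n m)))
    rw [hval]
    refine tendsto_of_tendsto_of_tendsto_of_le_of_le' tendsto_const_nhds hc ?_ ?_
    · filter_upwards [self_mem_nhdsWithin] with m' hm'
      exact mul_nonneg (ext_nonneg hm' i) (V_bounds i _).1
    · filter_upwards [self_mem_nhdsWithin] with m' hm'
      exact mul_le_mul_of_nonneg_left (V_bounds i _).2 (ext_nonneg hm' i)
  · exact (((ext_contDiff n i).contDiffAt.continuousAt).mul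
      (V_contDiffAt hm hi).continuousAt).continuousWithinAt

theorem DF_contDiffAt {n : ℕ} {m : Fin n → ℝ} (hm : ∀ i, 0 < m i) : ContDiffAt ℝ ∞ (DF n) m := by
  unfold DF Dsum
  apply ContDiffAt.sum
  intro i hi
  exact (ext_contDiff n i).contDiffAt.mul (V_contDiffAt (fun i => (hm i).le)
    (ext_pos hm (Finset.mem_range.1 hi)))

theorem DF_smooth (n : ℕ) : ContDiffOn ℝ ∞ (DF n) {m | ∀ i, 0 < m i} :=
  fun _ hm => (DF_contDiffAt hm).contDiffWithinAt

theorem ext_line (n : ℕ) (m g : Fin n → ℝ) (t : ℝ) :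
    ext n (fun i => m i * (1 + t * g i)) = fun j => ext n m j * (1 + t * ext n g j) := by
  funext j
  unfold ext
  split_ifs
  · rfl
  · ring

/-- the maximal function of `1_j / m_j` is at most `1 / m_i` at `i`. -/
theorem Mx_single_le {m : ℕ → ℝ} {i : ℕ} (hm : ∀ l ≤ i, 0 < m l) (j : ℕ) :
    0 ≤ Mx m (fun l => if l = j then 1 / m j else 0) i ∧
    m i * Mx m (fun l => if l = j then 1 / m j else 0) i ≤ 1 := by
  have hterm : ∀ k ≤ i, 0 ≤ (∑ l ∈ Finset.Icc k i, m l * |if l = j then 1 / m j else 0|) /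
      (∑ l ∈ Finset.Icc k i, m l) ∧
      (∑ l ∈ Finset.Icc k i, m l * |if l = j then 1 / m j else 0|) /
      (∑ l ∈ Finset.Icc k i, m l) ≤ 1 / m i := by
    intro k hk
    have hden : m i ≤ ∑ l ∈ Finset.Icc k i, m l :=
      Finset.single_le_sum (f := m) (fun l hl => (hm l (Finset.mem_Icc.1 hl).2).le)
        (Finset.mem_Icc.2 ⟨hk, le_rfl⟩)
    have hmi := hm i le_rfl
    have hterm' : ∀ l ∈ Finset.Icc k i, m l * |if l = j then 1 / m j else 0|
        = if l = j then 1 else 0 := by
      intro l hl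
      have hl' := hm l (Finset.mem_Icc.1 hl).2
      split_ifs with h
      · subst h
        rw [abs_of_pos (by positivity)]
        field_simp
      · simp
    have hnum : ∑ l ∈ Finset.Icc k i, m l * |if l = j then 1 / m j else 0|
        = if j ∈ Finset.Icc k i then 1 else 0 := by
      rw [Finset.sum_congr rfl hterm', Finset.sum_ite_eq']
    rw [hnum]
    constructor
    · apply div_nonneg
      · split_ifs <;> norm_num
      · linarith
    · apply div_le_div₀ zero_le_one _ hmi hden
      split_ifs <;> norm_num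
  constructor
  · unfold Mx
    exact (hterm 0 (Nat.zero_le i)).1.trans (Finset.le_sup' (fun k =>
      (∑ l ∈ Finset.Icc k i, m l * |if l = j then 1 / m j else 0|) /
      (∑ l ∈ Finset.Icc k i, m l)) (Finset.mem_range.2 (Nat.succ_pos i)))
  · have : Mx m (fun l => if l = j then 1 / m j else 0) i ≤ 1 / m i := by
      unfold Mx
      apply Finset.sup'_le
      intro k hk
      exact (hterm k (by have := Finset.mem_range.1 hk; omega)).2
    have hmi := hm i le_rfl
    rw [le_div_iff₀ hmi] at this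
    linarith

/-- gradient bound, from the bound on the depth along lines. -/
theorem DF_grad_of_line {C : ℝ} (hC : 0 ≤ C)
    (hV : ∀ (i : ℕ) (m g : ℕ → ℝ), (∀ j ≤ i, 0 < m j) →
      ContDiffAt ℝ 3 (fun t : ℝ => V i (fun j => m j * (1 + t * g j))) 0 ∧
      |iteratedDeriv 1 (fun t : ℝ => V i (fun j => m j * (1 + t * g j))) 0| ≤ C * (Mx m g i) ^ 1)
    (n : ℕ) : ∃ K : ℝ, ∀ m : Fin n → ℝ, (∀ i, 0 < m i) → ∀ j,
      |fderiv ℝ (DF n) m (Pi.single j 1)| ≤ K := by
  refine ⟨n + n * C, fun m hm j => ?_⟩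
  set M := ext n m with hM
  set g : ℕ → ℝ := fun l => if l = (j : ℕ) then 1 / M j else 0 with hg
  have hMpos : ∀ l < n, 0 < M l := fun l hl => ext_pos hm hl
  have hline : ∀ t : ℝ, ext n (m + t • Pi.single j 1) = fun l => M l * (1 + t * g l) := by
    intro t
    funext l
    by_cases hl : l < n
    · have hMl := hMpos l hl
      by_cases hlj : l = (j : ℕ)
      · have e1 : (⟨l, hl⟩ : Fin n) = j := Fin.ext hlj
        have e2 : M l = m j := by rw [hM]; unfold ext; rw [dif_pos hl, e1]
        have e3 : g l = 1 / M l := by simp only [hg, hlj, if_true]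
        rw [e3]
        unfold ext
        rw [dif_pos hl, e1]
        simp only [Pi.add_apply, Pi.smul_apply, Pi.single_eq_same, smul_eq_mul, mul_one]
        rw [← e2]
        field_simp
      · have e1 : (⟨l, hl⟩ : Fin n) ≠ j := fun h => hlj (by rw [← h])
        have e3 : g l = 0 := by simp only [hg, hlj, if_false]
        rw [e3, hM]
        unfold ext
        rw [dif_pos hl, dif_pos hl]
        simp [Pi.single_eq_of_ne e1]
    · rw [hM]
      unfold ext
      rw [dif_neg hl, dif_neg hl]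
      ring
  have hline0 : (fun l => M l * (1 + 0 * g l)) = M := by
    funext l; ring
  -- the derivative of each summand
  have hVd : ∀ i < n, HasDerivAt (fun t : ℝ => V i (fun l => M l * (1 + t * g l)))
      (deriv (fun t : ℝ => V i (fun l => M l * (1 + t * g l))) 0) 0 := by
    intro i hi
    exact ((hV i M g (fun l hl => hMpos l (by omega))).1.differentiableAt (by norm_num)).hasDerivAt
  have hsum : HasDerivAt (fun t : ℝ => ∑ i ∈ Finset.range n, (M i * (1 + t * g i)) *
      V i (fun l => M l * (1 + t * g l)))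
      (∑ i ∈ Finset.range n, ((M i * g i) * V i M +
        M i * deriv (fun t : ℝ => V i (fun l => M l * (1 + t * g l))) 0)) 0 := by
    apply HasDerivAt.fun_sum
    intro i hi
    have h1 : HasDerivAt (fun t : ℝ => M i * (1 + t * g i)) (M i * g i) 0 := by
      have := (((hasDerivAt_id (0 : ℝ)).mul_const (g i)).const_add 1).const_mul (M i)
      simpa using this
    have h2 := h1.fun_mul (hVd i (Finset.mem_range.1 hi))
    rw [hline0] at h2
    simpa using h2
  have hfd : HasDerivAt (fun t : ℝ => DF n (m + t • Pi.single j 1))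
      (fderiv ℝ (DF n) m (Pi.single j 1)) 0 :=
    ((DF_contDiffAt hm).differentiableAt (by simp)).hasFDerivAt.hasLineDerivAt _
  have hfun : (fun t : ℝ => DF n (m + t • Pi.single j 1)) =
      fun t : ℝ => ∑ i ∈ Finset.range n, (M i * (1 + t * g i)) *
      V i (fun l => M l * (1 + t * g l)) := by
    funext t
    unfold DF Dsum
    rw [hline t]
  rw [hfun] at hfd
  rw [hfd.unique hsum]
  refine (Finset.abs_sum_le_sum_abs _ _).trans ?_
  have hb : ∀ i ∈ Finset.range n, |(M i * g i) * V i M +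
        M i * deriv (fun t : ℝ => V i (fun l => M l * (1 + t * g l))) 0|
        ≤ (if i = (j : ℕ) then (n : ℝ) else 0) + C := by
    intro i hi
    rw [Finset.mem_range] at hi
    have hMi := hMpos i hi
    have hi' : (i : ℝ) ≤ n := by exact_mod_cast hi.le
    refine (abs_add_le _ _).trans (add_le_add ?_ ?_)
    · split_ifs with h
      · have e3 : g i = 1 / M i := by simp only [hg, h, if_true]
        rw [e3, mul_one_div_cancel hMi.ne', one_mul, abs_of_nonneg (V_bounds i M).1]
        exact (V_bounds i M).2.trans hi'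
      · have e3 : g i = 0 := by simp only [hg, h, if_false]
        rw [e3]; simp
    · have h1 := (hV i M g (fun l hl => hMpos l (by omega))).2
      rw [iteratedDeriv_one, pow_one] at h1
      have h2 := Mx_single_le (m := M) (i := i) (fun l hl => hMpos l (by omega)) (j : ℕ)
      rw [abs_mul, abs_of_pos hMi]
      calc M i * |deriv (fun t : ℝ => V i (fun l => M l * (1 + t * g l))) 0|
          ≤ M i * (C * Mx M g i) := mul_le_mul_of_nonneg_left h1 hMi.le
        _ = C * (M i * Mx M g i) := by ring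
        _ ≤ C * 1 := mul_le_mul_of_nonneg_left h2.2 hC
        _ = C := mul_one C
  refine (Finset.sum_le_sum hb).trans ?_
  rw [Finset.sum_add_distrib, Finset.sum_ite_eq', if_pos (Finset.mem_range.2 j.2)]
  simp

/-- assembly of `Good n (DF n) C` from the statement of `V_line` and the fields `h2`, `h3`, `c3`. -/
theorem good_of_line {C C' : ℝ} (hC' : 0 ≤ C')
    (hV : ∀ (i : ℕ) (m g : ℕ → ℝ), (∀ j ≤ i, 0 < m j) →
      ContDiffAt ℝ 3 (fun t : ℝ => V i (fun j => m j * (1 + t * g j))) 0 ∧
      ∀ r : ℕ, 1 ≤ r → r ≤ 3 →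
        |iteratedDeriv r (fun t : ℝ => V i (fun j => m j * (1 + t * g j))) 0| ≤
          C' * (Mx m g i) ^ r)
    (n : ℕ)
    (h2 : ∀ m, (∀ i, 0 < m i) → ∀ g : Fin n → ℝ,
      |fderiv ℝ (fderiv ℝ (DF n)) m (fun i => m i * g i) (fun i => m i * g i)|
        ≤ C * ∑ i, m i * g i ^ 2)
    (h3 : ∀ m, (∀ i, 0 < m i) → ∀ g : Fin n → ℝ,
      |fderiv ℝ (fderiv ℝ (DF n)) m (fun i => m i * g i) (fun i => m i * (g i * |g i|))|
        ≤ C * ∑ i, m i * |g i| ^ 3)
    (c3 : ∀ m, (∀ i, 0 < m i) → ∀ g : Fin n → ℝ,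
      |fderiv ℝ (fderiv ℝ (fderiv ℝ (DF n))) m (fun i => m i * g i) (fun i => m i * g i)
        (fun i => m i * g i)| ≤ C * ∑ i, m i * |g i| ^ 3) : Good n (DF n) C where
  nonneg := DF_nonneg n
  hom := DF_hom n
  cont := DF_cont n
  smooth := DF_smooth n
  grad := DF_grad_of_line hC' (fun i m g h => ⟨(hV i m g h).1, (hV i m g h).2 1 le_rfl (by norm_num)⟩) n
  h2 := h2
  h3 := h3
  c3 := c3

end Pool.Agent.US
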